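import Pool.Agent.Helper29.UG.Props

/-!
# MP_b55b7c_an: packet UG-Step (one step of the martingale)
-/

open scoped ENNReal NNReal InnerProductSpace ComplexOrder
open Filter Topology

attribute [-instance] CStarMatrix.instAlgebra CStarMatrix.instModule CStarMatrix.instSMul
  CStarMatrix.instMulAction CStarMatrix.instDistribMulAction

noncomputable section
namespace RC
universe u

section
variable {A : Type u} [CStarAlgebra A] [PartialOrder A] [StarOrderedRing A]

theorem ug_sq_le {y : A} (h0 : 0 ≤ y) (h1 : y ≤ 1) : y * y ≤ y := by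
  have := CStarAlgebra.pow_antitone h0 h1 one_le_two
  simpa [sq] using this

theorem ug_quarter {y : A} (hy : IsSelfAdjoint y) :
    y - y * y ≤ algebraMap ℝ A (1 / 4) := by
  have h : 0 ≤ star (algebraMap ℝ A (1 / 2) - y) * (algebraMap ℝ A (1 / 2) - y) :=
    star_mul_self_nonneg _
  have hs : star (algebraMap ℝ A (1 / 2) - y) = algebraMap ℝ A (1 / 2) - y := by
    rw [star_sub, hy.star_eq, ← algebraMap_star_comm]
    simp
  rw [hs] at h
  have e : (algebraMap ℝ A (1 / 2) - y) * (algebraMap ℝ A (1 / 2) - y) =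
      algebraMap ℝ A (1 / 4) - (y - y * y) := by
    have e1 : algebraMap ℝ A (1 / 2) * algebraMap ℝ A (1 / 2) = algebraMap ℝ A (1 / 4) := by
      rw [← map_mul]; norm_num
    have e2 : algebraMap ℝ A (1 / 2) * y = y * algebraMap ℝ A (1 / 2) := Algebra.commutes _ _
    have e3 : y * algebraMap ℝ A (1 / 2) + y * algebraMap ℝ A (1 / 2) = y := by
      rw [← mul_add, ← map_add]; norm_num
    rw [sub_mul, mul_sub, mul_sub, e1, e2]
    calc _ = algebraMap ℝ A (1 / 4) - (y * algebraMap ℝ A (1 / 2) + y * algebraMap ℝ A (1 / 2)) +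
          y * y := by abel
      _ = _ := by rw [e3]; abel
  rw [e] at h
  exact sub_nonneg.1 h

end

/-- Packet UG-Step. -/
theorem stepP (hN : N2P.{u}) : StepP.{u} := by
  intro A _ _ _ G α v hv0 hv1 hE F ε hε hε1 y hyi hy0 hy1
  classical
  obtain ⟨w, hw⟩ : ∃ w, w = y - y * y := ⟨_, rfl⟩
  have hys : IsSelfAdjoint y := hy0.isSelfAdjoint
  have hws : IsSelfAdjoint w := by
    rw [hw]
    exact hys.sub (by rw [← sq]; exact hys.pow 2)
  have hw0 : 0 ≤ w := by
    rw [hw]
    exact sub_nonneg.2 (ug_sq_le hy0 hy1)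
  have hw4 : ‖w‖ ≤ 1 / 4 := by
    rw [CStarAlgebra.norm_le_iff_le_algebraMap w (by norm_num) hw0, hw]
    exact ug_quarter hys
  have hw1 : w ≤ 1 := by
    rw [← CStarAlgebra.norm_le_one_iff_of_nonneg w hw0]
    linarith
  have hww : w * w ≤ w := ug_sq_le hw0 hw1
  obtain ⟨ξ, hξi, hξs, hξ1, hξ⟩ := hE ({w, w * w, w * y * w} ∪ (F ∪ F.image fun z => w * z * w))
    ε hε
  have hξle : ξ ≤ 1 := by
    have h1 := hξs.le_algebraMap_norm_self
    refine h1.trans ?_
    have h2 := algebraMap_mono A hξ1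
    simpa using h2
  have hξge : -1 ≤ ξ := by
    have h1 := hξs.neg_algebraMap_norm_le_self
    refine le_trans ?_ h1
    have h2 := algebraMap_mono A hξ1
    rw [map_one] at h2
    exact neg_le_neg h2
  have hu1 : w * ξ * w ≤ w * w := by
    have := star_left_conjugate_le_conjugate hξle w
    rw [hws.star_eq, mul_one] at this
    exact this
  have hu0 : -(w * w) ≤ w * ξ * w := by
    have := star_left_conjugate_le_conjugate hξge w
    rw [hws.star_eq] at this
    simpa using this
  refine ⟨y + w * ξ * w, ?_, ?_, ?_, ?_⟩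
  · intro g
    have hwi : α g w = w := by rw [hw, map_sub, map_mul, hyi]
    rw [map_add, map_mul, map_mul, hyi, hwi, hξi]
  · have h1 : y + w * ξ * w = (y - w) + (w - w * w) + (w * ξ * w - -(w * w)) := by abel
    rw [h1]
    refine add_nonneg (add_nonneg ?_ (sub_nonneg.2 hww)) (sub_nonneg.2 hu0)
    rw [hw, sub_sub_cancel]
    have := star_mul_self_nonneg y
    rwa [hys.star_eq] at this
  · rw [← sub_nonneg]
    have h1 : 1 - (y + w * ξ * w) = (1 - y - w) + (w - w * w) + (w * w - w * ξ * w) := by abel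
    rw [h1]
    refine add_nonneg (add_nonneg ?_ (sub_nonneg.2 hww)) (sub_nonneg.2 hu1)
    have h2 : 1 - y - w = star (1 - y) * (1 - y) := by
      rw [star_sub, star_one, hys.star_eq, hw]
      noncomm_ring
    rw [h2]
    exact star_mul_self_nonneg _
  · intro φ hφ
    obtain ⟨hA, hB, hC, hD⟩ := hN A φ
    have hξφ := hξ φ hφ
    obtain ⟨u, hu⟩ : ∃ u, u = w * ξ * w := ⟨_, rfl⟩
    have hus : IsSelfAdjoint u := by
      rw [hu, isSelfAdjoint_iff, star_mul, star_mul, hws.star_eq, hξs.star_eq, mul_assoc]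
    rw [← hu]
    refine ⟨?_, ?_⟩
    · have m1 := hξφ w (by simp)
      have m2 := hξφ (w * w) (by simp)
      have m3 := hξφ (w * y * w) (by simp)
      -- expansion
      have e1 : φ.φ u = φ.φ (ξ * (w * w)) := by
        rw [hu, mul_assoc, φ.trace, mul_assoc]
      have e2 : φ.φ (u * y) = φ.φ (ξ * (w * y * w)) := by
        rw [hu]
        calc φ.φ (w * ξ * w * y) = φ.φ (w * (ξ * w * y)) := by congr 1; noncomm_ring
          _ = φ.φ (ξ * w * y * w) := φ.trace _ _
          _ = _ := by congr 1; noncomm_ring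
      have e3 : φ.φ (y * u) = φ.φ (u * y) := φ.trace _ _
      have e4 : φ.φ (y + u - (y + u) * (y + u)) =
          φ.φ w + φ.φ u - φ.φ (y * u) - φ.φ (u * y) - φ.φ (u * u) := by
        rw [← map_add, ← map_sub, ← map_sub, ← map_sub]
        congr 1
        rw [hw]
        noncomm_ring
      have e5 : (φ.φ (u * u)).re = n2 φ u ^ 2 := by
        rw [(hA u).2.1, hus.star_eq]
      have a1 : |(φ.φ (ξ * (w * w))).re| ≤ ε := (Complex.abs_re_le_norm _).trans m2.2.1
      have a2 : |(φ.φ (ξ * (w * y * w))).re| ≤ ε := (Complex.abs_re_le_norm _).trans m3.2.1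
      -- the variance
      have b1 : n2 φ (ξ * (w * w)) ≤ n2 φ u + ε := by
        have h1 : ξ * (w * w) = u + (ξ * w - w * ξ) * w := by
          rw [hu]; noncomm_ring
        rw [h1]
        refine ((hC _ _).1).trans ?_
        have h2 : n2 φ ((ξ * w - w * ξ) * w) ≤ n2 φ (ξ * w - w * ξ) * ‖w‖ := (hC _ _).2.2.2.1
        have h3 : n2 φ (ξ * w - w * ξ) * ‖w‖ ≤ ε * 1 :=
          mul_le_mul m1.1 (by linarith) (norm_nonneg _) hε.le
        linarith
      have b2 : v * n2 φ (w * w) ^ 2 - ε ≤ n2 φ (ξ * (w * w)) ^ 2 := m2.2.2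
      have b3 : (φ.φ w).re ^ 2 ≤ n2 φ (w * w) := by
        have h1 : |(φ.φ w).re| ≤ n2 φ w := (Complex.abs_re_le_norm _).trans (hA w).2.2.2.1
        have h2 : (φ.φ w).re ^ 2 ≤ n2 φ w ^ 2 := by
          rw [← sq_abs]
          exact pow_le_pow_left₀ (abs_nonneg _) h1 2
        have h3 : n2 φ w ^ 2 = (φ.φ (w * w)).re := by
          rw [(hA w).2.1, hws.star_eq]
        have h4 : (φ.φ (w * w)).re ≤ n2 φ (w * w) :=
          ((le_abs_self _).trans (Complex.abs_re_le_norm _)).trans (hA (w * w)).2.2.2.1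
        linarith
      have b4 : (φ.φ w).re ^ 4 ≤ n2 φ (w * w) ^ 2 := by
        have := pow_le_pow_left₀ (sq_nonneg (φ.φ w).re) b3 2
        calc (φ.φ w).re ^ 4 = ((φ.φ w).re ^ 2) ^ 2 := by ring
          _ ≤ _ := this
      have b5 : n2 φ (ξ * (w * w)) ^ 2 ≤ (n2 φ u + ε) ^ 2 :=
        pow_le_pow_left₀ (hA _).1 b1 2
      have b6 : 0 ≤ n2 φ u := (hA u).1
      rw [e4, ← hw]
      simp only [Complex.add_re, Complex.sub_re]
      rw [e3, e2, e1, e5]
      have c1 := abs_le.1 a1
      have c2 := abs_le.1 a2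
      have c3 : v * (φ.φ w).re ^ 4 ≤ v * n2 φ (w * w) ^ 2 := by gcongr
      nlinarith [sq_nonneg (n2 φ u - ε), mul_nonneg hε.le (sub_nonneg.2 hε1)]
    · intro z hz
      have m1 := hξφ z (by simp [hz])
      have m2 := hξφ (w * z * w) (by
        simp only [Finset.mem_union, Finset.mem_image]
        exact Or.inr (Or.inr ⟨z, hz, rfl⟩))
      constructor
      · have h1 : φ.φ ((y + u) * z) - φ.φ (y * z) = φ.φ (ξ * (w * z * w)) := by
          rw [← map_sub, hu]
          calc φ.φ ((y + w * ξ * w) * z - y * z) = φ.φ (w * (ξ * w * z)) := by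
                congr 1; noncomm_ring
            _ = φ.φ (ξ * w * z * w) := φ.trace _ _
            _ = _ := by congr 1; noncomm_ring
        rw [h1]
        exact m2.2.1
      · have hc : n2 φ (w * z - z * w) ≤ 3 * n2 φ (y * z - z * y) := by
          have h1 : w * z - z * w = (y * z - z * y) - (y * (y * z - z * y) +
              (y * z - z * y) * y) := by
            rw [hw]; noncomm_ring
          have hyn : ‖y‖ ≤ 1 := (CStarAlgebra.norm_le_one_iff_of_nonneg y hy0).2 hy1
          have hn0 := (hA (y * z - z * y)).1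
          have h2 : n2 φ (y * (y * z - z * y)) ≤ ‖y‖ * n2 φ (y * z - z * y) := (hC _ _).2.2.1
          have h3 : n2 φ ((y * z - z * y) * y) ≤ n2 φ (y * z - z * y) * ‖y‖ := (hC _ _).2.2.2.1
          have h4 := (hC (y * (y * z - z * y)) ((y * z - z * y) * y)).1
          have h5 := (hC (y * z - z * y) (y * (y * z - z * y) + (y * z - z * y) * y)).2.1
          rw [h1]
          nlinarith
        have hn0 := (hA (y * z - z * y)).1
        have hm0 := (hA (w * z - z * w)).1
        have hwξ : ‖w * ξ‖ ≤ 1 / 4 := by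
          refine (norm_mul_le _ _).trans ?_
          nlinarith [norm_nonneg w, norm_nonneg ξ]
        have hξw : ‖ξ * w‖ ≤ 1 / 4 := by
          refine (norm_mul_le _ _).trans ?_
          nlinarith [norm_nonneg w, norm_nonneg ξ]
        have h1 : (y + u) * z - z * (y + u) = (y * z - z * y) + ((w * ξ) * (w * z - z * w) +
            (w * (ξ * z - z * ξ) * w + (w * z - z * w) * (ξ * w))) := by
          rw [hu]; noncomm_ring
        have h2 : n2 φ ((w * ξ) * (w * z - z * w)) ≤ ‖w * ξ‖ * n2 φ (w * z - z * w) :=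
          (hC _ _).2.2.1
        have h3 : n2 φ ((w * z - z * w) * (ξ * w)) ≤ n2 φ (w * z - z * w) * ‖ξ * w‖ :=
          (hC _ _).2.2.2.1
        have h4 : n2 φ (w * (ξ * z - z * ξ) * w) ≤ n2 φ (w * (ξ * z - z * ξ)) * ‖w‖ :=
          (hC _ _).2.2.2.1
        have h5 : n2 φ (w * (ξ * z - z * ξ)) ≤ ‖w‖ * n2 φ (ξ * z - z * ξ) := (hC _ _).2.2.1
        have h6 : n2 φ (w * (ξ * z - z * ξ)) ≤ ε := by
          nlinarith [m1.1, (hA (ξ * z - z * ξ)).1, norm_nonneg w]
        have h7 : n2 φ (w * (ξ * z - z * ξ) * w) ≤ ε := by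
          nlinarith [(hA (w * (ξ * z - z * ξ))).1, norm_nonneg w]
        have s1 := (hC (y * z - z * y) ((w * ξ) * (w * z - z * w) +
            (w * (ξ * z - z * ξ) * w + (w * z - z * w) * (ξ * w)))).1
        have s2 := (hC ((w * ξ) * (w * z - z * w))
            (w * (ξ * z - z * ξ) * w + (w * z - z * w) * (ξ * w))).1
        have s3 := (hC (w * (ξ * z - z * ξ) * w) ((w * z - z * w) * (ξ * w))).1
        rw [h1]
        have k1 : ‖w * ξ‖ * n2 φ (w * z - z * w) ≤ 1 / 4 * n2 φ (w * z - z * w) := by gcongr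
        have k2 : n2 φ (w * z - z * w) * ‖ξ * w‖ ≤ n2 φ (w * z - z * w) * (1 / 4) := by gcongr
        linarith

end RC
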